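import Pool.Agent.H299.RDE.Final

/-!
# MP_5c7d49_an: the counts for order three, and bounds for the counts for order four

`esb k` is the set of special cases `(P, Q)` (nonempty subsets of `{0, …, k}`, the indices of the
positive numerator and denominator parameters) all of whose solutions are bounded; `eus k` is the
set of the other special cases.
-/

namespace Pool.Agent.Results.MP_5c7d49_an.Counts

open Pool.Agent.H299.RDE

/-- For `k = 3` exactly `135` special cases are ESB and `90` are ∃US. For `k = 4` at least `507`
are ESB and at least `410` are ∃US, out of `961`. -/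
theorem result :
    ((esb 3).ncard = 135 ∧ (eus 3).ncard = 90) ∧
    (507 ≤ (esb 4).ncard ∧ 410 ≤ (eus 4).ncard ∧ (esb 4).ncard + (eus 4).ncard = 961) :=
  ⟨⟨ncard_esb3, ncard_eus3⟩, le_ncard_esb4, le_ncard_eus4, ncard_add4⟩

end Pool.Agent.Results.MP_5c7d49_an.Counts
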